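import Mathlib
import Pool.Agent.Lib.helper4.PlanarL

set_option autoImplicit false

namespace Pool.Agent.H.MP_7589f8_co

open Pool.Agent.Lib.helper4.Planar

abbrev V := Fin 58

def EL : List (V × V) :=
  [(0, 1), (0, 2), (0, 3), (0, 4), (0, 5), (0, 40), (0, 47), (0, 48), (1, 2),
   (1, 3), (1, 4), (1, 11), (1, 12), (1, 22), (1, 23), (2, 3), (2, 22), (2, 29),
   (2, 30), (2, 40), (2, 41), (3, 5), (3, 12), (3, 14), (3, 23), (3, 30), (3, 32),
   (3, 41), (3, 48), (3, 50), (4, 5), (4, 8), (4, 9), (4, 10), (4, 11), (4, 13),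
   (5, 6), (5, 9), (5, 10), (5, 14), (6, 7), (6, 9), (6, 10), (6, 16), (6, 17),
   (6, 19), (6, 20), (7, 8), (7, 9), (7, 10), (7, 15), (7, 16), (7, 21), (8, 9),
   (8, 10), (9, 13), (9, 14), (9, 19), (9, 21), (11, 12), (11, 13), (12, 13), (12, 14),
   (13, 14), (15, 16), (15, 18), (15, 20), (15, 21), (16, 20), (17, 18), (17, 19), (17, 20),
   (18, 19), (18, 20), (18, 21), (19, 21), (22, 23), (22, 26), (22, 27), (22, 28), (22, 29),
   (22, 31), (23, 24), (23, 27), (23, 28), (23, 32), (24, 25), (24, 27), (24, 28), (24, 34),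
   (24, 35), (24, 37), (24, 38), (25, 26), (25, 27), (25, 28), (25, 33), (25, 34), (25, 39),
   (26, 27), (26, 28), (27, 31), (27, 32), (27, 37), (27, 39), (29, 30), (29, 31), (30, 31),
   (30, 32), (31, 32), (33, 34), (33, 36), (33, 38), (33, 39), (34, 38), (35, 36), (35, 37),
   (35, 38), (36, 37), (36, 38), (36, 39), (37, 39), (40, 41), (40, 44), (40, 45), (40, 46),
   (40, 47), (40, 49), (41, 42), (41, 45), (41, 46), (41, 50), (42, 43), (42, 45), (42, 46),
   (42, 52), (42, 53), (42, 55), (42, 56), (43, 44), (43, 45), (43, 46), (43, 51), (43, 52),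
   (43, 57), (44, 45), (44, 46), (45, 49), (45, 50), (45, 55), (45, 57), (47, 48), (47, 49),
   (48, 49), (48, 50), (49, 50), (51, 52), (51, 54), (51, 56), (51, 57), (52, 56), (53, 54),
   (53, 55), (53, 56), (54, 55), (54, 56), (54, 57), (55, 57)]

def q (v : V) : ℕ × ℕ :=
  ((176220720568367104696566708249975629986625093697648078161314008204161065521729250041834691776990516795790153186613271276871037113650520739549053805748802222820386005854466301677400006174312727288183259088825965 >>> (12 * v.val)) % 4096,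
   (110870514722686607625941353286876318487604516817984420022166846630937681181537016220861271724383932247967984716383896652374681930445946740887208862729159013465759275726654423937132897371658560523727625010653172 >>> (12 * v.val)) % 4096)

def G : SimpleGraph V := ofList EL

instance : DecidableRel G.Adj := inferInstanceAs (DecidableRel (ofList EL).Adj)

theorem planarG : Planar G := planar_ofList q EL (by decide +kernel)

def M (col : V → Bool) (Z : Finset V) : Finset (V × V) :=
  (Z ×ˢ Z).filter fun e => G.Adj e.1 e.2 ∧ col e.1 = col e.2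

theorem memM (col : V → Bool) (Z : Finset V) (e : V × V) :
    e ∈ M col Z ↔ (e.1 ∈ Z ∧ e.2 ∈ Z) ∧ G.Adj e.1 e.2 ∧ col e.1 = col e.2 := by
  simp only [M, Finset.mem_filter, Finset.mem_product]

theorem bound (col : V → Bool) (p : V → V)
    (hp : ∀ u v, G.Adj u v → col u = col v → p u = v ∨ p v = u) (Z : Finset V) :
    (M col Z).card ≤ 2 * Z.card := by
  have : M col Z ⊆ Z.image (fun w => (w, p w)) ∪ Z.image (fun w => (p w, w)) := by
    rintro ⟨u, v⟩ h
    obtain ⟨⟨a, b⟩, c, d⟩ := (memM col Z _).1 h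
    rcases hp u v c d with e | e
    · exact Finset.mem_union_left _ (Finset.mem_image.2 ⟨u, a, by rw [e]⟩)
    · exact Finset.mem_union_right _ (Finset.mem_image.2 ⟨v, b, by rw [e]⟩)
  have h1 := Finset.card_le_card this
  have h2 := Finset.card_union_le (Z.image fun w => (w, p w)) (Z.image fun w => (p w, w))
  have h3 := Finset.card_image_le (s := Z) (f := fun w => (w, p w))
  have h4 := Finset.card_image_le (s := Z) (f := fun w => (p w, w))
  omega

theorem step (col : V → Bool) (Z : Finset V) (v : V) (hv : v ∉ Z) (S : Finset V)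
    (hS : ∀ u ∈ S, u ∈ Z ∧ G.Adj v u ∧ col u = col v) :
    (M col Z).card + 2 * S.card ≤ (M col (insert v Z)).card := by
  have i1 : Function.Injective fun u : V => (u, v) := fun a b h => (Prod.mk.inj h).1
  have i2 : Function.Injective fun u : V => (v, u) := fun a b h => (Prod.mk.inj h).2
  have d1 : Disjoint (S.image fun u => (u, v)) (S.image fun u => (v, u)) := by
    rw [Finset.disjoint_left]
    intro e h1 h2
    obtain ⟨a, ha, rfl⟩ := Finset.mem_image.1 h1
    obtain ⟨b, _, e⟩ := Finset.mem_image.1 h2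
    exact hv ((Prod.mk.inj e).1 ▸ (hS a ha).1)
  have d2 : Disjoint (M col Z) ((S.image fun u => (u, v)) ∪ (S.image fun u => (v, u))) := by
    rw [Finset.disjoint_left]
    intro e h1 h2
    have := ((memM col Z e).1 h1).1
    rcases Finset.mem_union.1 h2 with h | h
    · obtain ⟨a, _, rfl⟩ := Finset.mem_image.1 h
      exact hv this.2
    · obtain ⟨a, _, rfl⟩ := Finset.mem_image.1 h
      exact hv this.1
  have sub : M col Z ∪ ((S.image fun u => (u, v)) ∪ (S.image fun u => (v, u))) ⊆
      M col (insert v Z) := by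
    intro e h
    rw [memM]
    rcases Finset.mem_union.1 h with h | h
    · have := (memM col Z e).1 h
      exact ⟨⟨Finset.mem_insert_of_mem this.1.1, Finset.mem_insert_of_mem this.1.2⟩, this.2⟩
    · rcases Finset.mem_union.1 h with h | h
      · obtain ⟨a, ha, rfl⟩ := Finset.mem_image.1 h
        exact ⟨⟨Finset.mem_insert_of_mem (hS a ha).1, Finset.mem_insert_self _ _⟩,
          (hS a ha).2.1.symm, (hS a ha).2.2⟩
      · obtain ⟨a, ha, rfl⟩ := Finset.mem_image.1 h
        exact ⟨⟨Finset.mem_insert_self _ _, Finset.mem_insert_of_mem (hS a ha).1⟩,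
          (hS a ha).2.1, (hS a ha).2.2.symm⟩
  have := Finset.card_le_card sub
  rw [Finset.card_union_of_disjoint d2, Finset.card_union_of_disjoint d1,
    Finset.card_image_of_injective _ i1, Finset.card_image_of_injective _ i2] at this
  omega

def cnt (x : ℕ) (l : List V) : ℕ := l.countP fun u => x.testBit u.val

theorem step2 (col : V → Bool) (Z : Finset V) (v : V) (hv : v ∉ Z) (l : List V) (hl : l.Nodup)
    (ha : ∀ u ∈ l, G.Adj v u) (x : ℕ) (hx : ∀ u : V, x.testBit u = true → u ∈ Z ∧ col u = col v) :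
    (M col Z).card + 2 * cnt x l ≤ (M col (insert v Z)).card := by
  have := step col Z v hv (l.filter fun u => x.testBit u.val).toFinset (fun u hu => by
    have h := List.mem_filter.1 (List.mem_toFinset.1 hu)
    exact ⟨(hx u h.2).1, ha u h.1, (hx u h.2).2⟩)
  rwa [List.toFinset_card_of_nodup (hl.filter _), ← List.countP_eq_length_filter] at this

def force (n : ℕ) (f : ℕ → Bool) : Bool := Nat.casesOn n (f 0) fun m => f m.succ

theorem force_eq (n : ℕ) (f : ℕ → Bool) : force n f = f n := by cases n <;> rfl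

def go (L : List (V × List V)) : ℕ → ℕ → ℕ → Bool
  | 0, _, _ => false
  | f + 1, x, y =>
    match L.find? fun a => !(x ||| y).testBit a.1.val && Nat.blt 0 (cnt x a.2) &&
        Nat.blt 0 (cnt y a.2) with
    | none => false
    | some a =>
      (Nat.blt 1 (cnt x a.2) || force (x ||| 2 ^ a.1.val) fun x' => go L f x' y) &&
        (Nat.blt 1 (cnt y a.2) || force (y ||| 2 ^ a.1.val) fun y' => go L f x y')

theorem bit_or (x : ℕ) (v u : V) :
    (x ||| 2 ^ v.val).testBit u.val = true ↔ (x.testBit u.val = true ∨ u = v) := by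
  rw [Nat.testBit_or, Bool.or_eq_true, Nat.testBit_two_pow, decide_eq_true_eq, Fin.ext_iff,
    eq_comm (a := v.val)]

theorem go_ok (col : V → Bool) (L : List (V × List V)) (hi : ℕ)
    (hL : ∀ a ∈ L, a.1.val < hi ∧ a.2.Nodup ∧ ∀ u ∈ a.2, G.Adj a.1 u) :
    ∀ f x y, go L f x y = true → ∀ Z : Finset V,
      (∀ u : V, x.testBit u = true → u ∈ Z ∧ col u = true) →
      (∀ u : V, y.testBit u = true → u ∈ Z ∧ col u = false) →
      (∀ a ∈ L, a.1 ∈ Z → (x ||| y).testBit a.1 = true) →
      ∃ Z' : Finset V, Z ⊆ Z' ∧ (∀ u ∈ Z', u ∈ Z ∨ u.val < hi) ∧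
        (M col Z).card + 2 * Z'.card + 2 ≤ (M col Z').card + 2 * Z.card := by
  intro f
  induction f with
  | zero => intro x y h; simp [go] at h
  | succ f ih =>
    intro x y h Z hx hy hz
    unfold go at h
    split at h
    · exact absurd h (by simp)
    · rename_i a hf
      have h1 := List.find?_some hf
      have ha := List.mem_of_find?_eq_some hf
      simp only [Bool.and_eq_true, Bool.not_eq_true', Nat.blt_eq] at h1
      simp only [Bool.and_eq_true, Bool.or_eq_true, Nat.blt_eq, force_eq] at h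
      have hv : a.1 ∉ Z := fun c => by
        have := hz a ha c
        rw [h1.1.1] at this
        exact absurd this (by simp)
      have hc := Finset.card_insert_of_notMem hv
      have fin : ∀ u ∈ insert a.1 Z, u ∈ Z ∨ u.val < hi := fun u hu => by
        rcases Finset.mem_insert.1 hu with rfl | hu
        · exact Or.inr (hL a ha).1
        · exact Or.inl hu
      cases cv : col a.1
      · have s := step2 col Z a.1 hv a.2 (hL a ha).2.1 (hL a ha).2.2 y (by rw [cv]; exact hy)
        rcases h.2 with r | r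
        · exact ⟨insert a.1 Z, Finset.subset_insert _ _, fin, by omega⟩
        · obtain ⟨Z', s1, s2, s3⟩ := ih _ _ r (insert a.1 Z)
            (fun u hu => ⟨Finset.mem_insert_of_mem (hx u hu).1, (hx u hu).2⟩)
            (fun u hu => by
              rcases (bit_or y a.1 u).1 hu with w | rfl
              · exact ⟨Finset.mem_insert_of_mem (hy u w).1, (hy u w).2⟩
              · exact ⟨Finset.mem_insert_self _ _, cv⟩)
            (fun b hb c => by
              rw [← Nat.or_assoc, bit_or]
              rcases Finset.mem_insert.1 c with e | e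
              · exact Or.inr e
              · exact Or.inl (hz b hb e))
          refine ⟨Z', (Finset.subset_insert _ _).trans s1, fun u hu => ?_, by omega⟩
          rcases s2 u hu with w | w
          · exact fin u w
          · exact Or.inr w
      · have s := step2 col Z a.1 hv a.2 (hL a ha).2.1 (hL a ha).2.2 x (by rw [cv]; exact hx)
        rcases h.1 with r | r
        · exact ⟨insert a.1 Z, Finset.subset_insert _ _, fin, by omega⟩
        · obtain ⟨Z', s1, s2, s3⟩ := ih _ _ r (insert a.1 Z)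
            (fun u hu => by
              rcases (bit_or x a.1 u).1 hu with w | rfl
              · exact ⟨Finset.mem_insert_of_mem (hx u w).1, (hx u w).2⟩
              · exact ⟨Finset.mem_insert_self _ _, cv⟩)
            (fun u hu => ⟨Finset.mem_insert_of_mem (hy u hu).1, (hy u hu).2⟩)
            (fun b hb c => by
              rw [Nat.or_assoc, Nat.or_comm (2 ^ a.1.val), ← Nat.or_assoc, bit_or]
              rcases Finset.mem_insert.1 c with e | e
              · exact Or.inr e
              · exact Or.inl (hz b hb e))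
          refine ⟨Z', (Finset.subset_insert _ _).trans s1, fun u hu => ?_, by omega⟩
          rcases s2 u hu with w | w
          · exact fin u w
          · exact Or.inr w

theorem ext1 (col : V → Bool) (L : List (V × List V)) (lo hi : ℕ) (hlo : lo ≤ hi)
    (hL : ∀ a ∈ L, lo ≤ a.1.val ∧ a.1.val < hi ∧ a.2.Nodup ∧ ∀ u ∈ a.2, G.Adj a.1 u) (x y : ℕ)
    (Z : Finset V) (hx : ∀ u : V, x.testBit u = true → u ∈ Z ∧ col u = true)
    (hy : ∀ u : V, y.testBit u = true → u ∈ Z ∧ col u = false) (hZ : ∀ u ∈ Z, u.val < lo) :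
    ∃ Z' : Finset V, Z ⊆ Z' ∧ (∀ u ∈ Z', u.val < hi) ∧
      (M col Z).card + 2 * Z'.card + 2 * (go L 19 x y).toNat ≤ (M col Z').card + 2 * Z.card := by
  cases h : go L 19 x y
  · exact ⟨Z, Finset.Subset.refl _, fun u hu => lt_of_lt_of_le (hZ u hu) hlo, by simp⟩
  · obtain ⟨Z', a, b, c⟩ := go_ok col L hi (fun a ha => (hL a ha).2) 19 x y h Z hx hy
      (fun a ha c => by have := hZ _ c; have := (hL a ha).1; omega)
    refine ⟨Z', a, fun u hu => ?_, by simpa using c⟩
    rcases b u hu with w | w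
    · exact lt_of_lt_of_le (hZ u w) hlo
    · exact w

def L1 : List (V × List V) :=
  [(9, [4, 5, 6, 7, 8, 13, 14, 19, 21]), (4, [0, 1, 5, 8, 9, 10, 11, 13]),
   (6, [5, 7, 9, 10, 16, 17, 19, 20]), (5, [0, 3, 4, 6, 9, 10, 14]),
   (7, [6, 8, 9, 10, 15, 16, 21]), (10, [4, 5, 6, 7, 8]),
   (12, [1, 3, 11, 13, 14]), (13, [4, 9, 11, 12, 14]),
   (14, [3, 5, 9, 12, 13]), (15, [7, 16, 18, 20, 21]),
   (18, [15, 17, 19, 20, 21]), (19, [6, 9, 17, 18, 21]),
   (20, [6, 15, 16, 17, 18]), (21, [7, 9, 15, 18, 19]),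
   (8, [4, 7, 9, 10]), (11, [1, 4, 12, 13]),
   (16, [6, 7, 15, 20]), (17, [6, 18, 19, 20])]

def L2 : List (V × List V) :=
  [(27, [22, 23, 24, 25, 26, 31, 32, 37, 39]), (22, [1, 2, 23, 26, 27, 28, 29, 31]),
   (24, [23, 25, 27, 28, 34, 35, 37, 38]), (23, [1, 3, 22, 24, 27, 28, 32]),
   (25, [24, 26, 27, 28, 33, 34, 39]), (28, [22, 23, 24, 25, 26]),
   (30, [2, 3, 29, 31, 32]), (31, [22, 27, 29, 30, 32]),
   (32, [3, 23, 27, 30, 31]), (33, [25, 34, 36, 38, 39]),
   (36, [33, 35, 37, 38, 39]), (37, [24, 27, 35, 36, 39]),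
   (38, [24, 33, 34, 35, 36]), (39, [25, 27, 33, 36, 37]),
   (26, [22, 25, 27, 28]), (29, [2, 22, 30, 31]),
   (34, [24, 25, 33, 38]), (35, [24, 36, 37, 38])]

def L3 : List (V × List V) :=
  [(45, [40, 41, 42, 43, 44, 49, 50, 55, 57]), (40, [0, 2, 41, 44, 45, 46, 47, 49]),
   (42, [41, 43, 45, 46, 52, 53, 55, 56]), (41, [2, 3, 40, 42, 45, 46, 50]),
   (43, [42, 44, 45, 46, 51, 52, 57]), (46, [40, 41, 42, 43, 44]),
   (48, [0, 3, 47, 49, 50]), (49, [40, 45, 47, 48, 50]),
   (50, [3, 41, 45, 48, 49]), (51, [43, 52, 54, 56, 57]),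
   (54, [51, 53, 55, 56, 57]), (55, [42, 45, 53, 54, 57]),
   (56, [42, 51, 52, 53, 54]), (57, [43, 45, 51, 54, 55]),
   (44, [40, 43, 45, 46]), (47, [0, 40, 48, 49]),
   (52, [42, 43, 51, 56]), (53, [42, 54, 55, 56])]

theorem h1 : ∀ a ∈ L1, 4 ≤ a.1.val ∧ a.1.val < 22 ∧ a.2.Nodup ∧ ∀ u ∈ a.2, G.Adj a.1 u := by
  decide +kernel

theorem h2 : ∀ a ∈ L2, 22 ≤ a.1.val ∧ a.1.val < 40 ∧ a.2.Nodup ∧ ∀ u ∈ a.2, G.Adj a.1 u := by
  decide +kernel

theorem h3 : ∀ a ∈ L3, 40 ≤ a.1.val ∧ a.1.val < 58 ∧ a.2.Nodup ∧ ∀ u ∈ a.2, G.Adj a.1 u := by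
  decide +kernel

def K : Finset V := {0, 1, 2, 3}

def fb (a b c d : Bool) (v : V) : Bool :=
  if v = 0 then a else if v = 1 then b else if v = 2 then c else d

def mk (a b c d : Bool) : ℕ := a.toNat + 2 * b.toNat + 4 * c.toNat + 8 * d.toNat

theorem mk_bit : ∀ a b c d : Bool, ∀ u : V, ((mk a b c d).testBit u = true →
    u ∈ K ∧ fb a b c d u = true) ∧
      ((15 - mk a b c d).testBit u = true → u ∈ K ∧ fb a b c d u = false) := by
  decide +kernel

theorem base : ∀ a b c d : Bool, 10 ≤ (M (fb a b c d) K).card +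
    2 * (go L1 19 (mk a b c d) (15 - mk a b c d)).toNat +
    2 * (go L2 19 (mk a b c d) (15 - mk a b c d)).toNat +
    2 * (go L3 19 (mk a b c d) (15 - mk a b c d)).toNat := by
  decide +kernel

theorem main (col : V → Bool) (p : V → V)
    (hp : ∀ u v, G.Adj u v → col u = col v → p u = v ∨ p v = u) : False := by
  have e : ∀ u ∈ K, col u = fb (col 0) (col 1) (col 2) (col 3) u := by
    intro u hu
    simp only [K, Finset.mem_insert, Finset.mem_singleton] at hu
    rcases hu with rfl | rfl | rfl | rfl <;> rfl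
  have eM : M col K = M (fb (col 0) (col 1) (col 2) (col 3)) K := by
    ext z
    rw [memM, memM]
    refine and_congr_right fun h => ?_
    rw [← e _ h.1, ← e _ h.2]
  have b := base (col 0) (col 1) (col 2) (col 3)
  have mb := mk_bit (col 0) (col 1) (col 2) (col 3)
  rw [← eM] at b
  generalize mk (col 0) (col 1) (col 2) (col 3) = x at b mb
  have hx : ∀ u : V, x.testBit u = true → u ∈ K ∧ col u = true := fun u hu =>
    ⟨((mb u).1 hu).1, (e u ((mb u).1 hu).1).trans ((mb u).1 hu).2⟩
  have hy : ∀ u : V, (15 - x).testBit u = true → u ∈ K ∧ col u = false := fun u hu =>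
    ⟨((mb u).2 hu).1, (e u ((mb u).2 hu).1).trans ((mb u).2 hu).2⟩
  have k4 : K.card = 4 := by decide +kernel
  obtain ⟨Z1, a1, b1, c1⟩ := ext1 col L1 4 22 (by omega) h1 x (15 - x) K hx hy
    (by decide +kernel)
  obtain ⟨Z2, a2, b2, c2⟩ := ext1 col L2 22 40 (by omega) h2 x (15 - x) Z1
    (fun u hu => ⟨a1 (hx u hu).1, (hx u hu).2⟩) (fun u hu => ⟨a1 (hy u hu).1, (hy u hu).2⟩) b1
  obtain ⟨Z3, a3, b3, c3⟩ := ext1 col L3 40 58 (by omega) h3 x (15 - x) Z2
    (fun u hu => ⟨a2 (a1 (hx u hu).1), (hx u hu).2⟩)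
    (fun u hu => ⟨a2 (a1 (hy u hu).1), (hy u hu).2⟩) b2
  have := bound col p hp Z3
  omega

end Pool.Agent.H.MP_7589f8_co
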